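import Mathlib
import Pool.Agent.Lib.MP_b50c09_co.Box

set_option autoImplicit false
set_option linter.unusedSectionVars false
set_option linter.unusedVariables false

namespace Pool.Agent.Lib.MP_b50c09_co.K

open Finset

/-- Real indicator of a proposition. -/
noncomputable def ind (p : Prop) : ℝ := by
  classical
  exact if p then 1 else 0

theorem ind_pos {p : Prop} (h : p) : ind p = 1 := by simp [ind, h]

theorem ind_neg {p : Prop} (h : ¬ p) : ind p = 0 := by simp [ind, h]

theorem ind_nonneg (p : Prop) : 0 ≤ ind p := by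
  by_cases h : p
  · rw [ind_pos h]; norm_num
  · rw [ind_neg h]

theorem ind_le_one (p : Prop) : ind p ≤ 1 := by
  by_cases h : p
  · rw [ind_pos h]
  · rw [ind_neg h]; norm_num

theorem ind_mono {p q : Prop} (h : p → q) : ind p ≤ ind q := by
  by_cases hp : p
  · rw [ind_pos hp, ind_pos (h hp)]
  · rw [ind_neg hp]; exact ind_nonneg q

theorem ind_congr {p q : Prop} (h : p ↔ q) : ind p = ind q := by rw [propext h]

theorem sum_ind {α : Type} (s : Finset α) (p : α → Prop) [DecidablePred p] :
    ∑ a ∈ s, ind (p a) = ((s.filter p).card : ℝ) := by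
  rw [Finset.card_filter]
  push_cast
  refine Finset.sum_congr rfl fun a _ => ?_
  by_cases h : p a
  · rw [ind_pos h, if_pos h]
  · rw [ind_neg h, if_neg h]

/-- All lists of length `j` with entries in `R`. -/
def lists {V : Type} (R : Finset V) : ℕ → Finset (List V)
  | 0 => {[]}
  | j + 1 => (R ×ˢ lists R j).map ⟨fun p => p.1 :: p.2, by
      intro p q h
      simp only [List.cons.injEq] at h
      exact Prod.ext h.1 h.2⟩

section
variable {V : Type}

theorem sum_lists_zero (R : Finset V) (g : List V → ℝ) : ∑ l ∈ lists R 0, g l = g [] := by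
  simp [lists]

theorem sum_lists_succ (R : Finset V) (j : ℕ) (g : List V → ℝ) :
    ∑ l ∈ lists R (j + 1), g l = ∑ v ∈ R, ∑ l ∈ lists R j, g (v :: l) := by
  simp only [lists]
  rw [Finset.sum_map, Finset.sum_product]
  rfl

theorem mem_lists (R : Finset V) : ∀ (j : ℕ) (l : List V),
    l ∈ lists R j ↔ l.length = j ∧ ∀ v ∈ l, v ∈ R := by
  intro j
  induction j with
  | zero =>
    intro l
    simp only [lists, Finset.mem_singleton, List.length_eq_zero_iff]
    constructor
    · rintro rfl; simp
    · exact fun h => h.1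
  | succ j ih =>
    intro l
    simp only [lists, Finset.mem_map, Finset.mem_product, Function.Embedding.coeFn_mk]
    constructor
    · rintro ⟨p, ⟨h1, h2⟩, rfl⟩
      obtain ⟨h3, h4⟩ := (ih _).mp h2
      refine ⟨by simp [h3], ?_⟩
      intro v hv
      rcases List.mem_cons.mp hv with rfl | hv
      · exact h1
      · exact h4 v hv
    · rintro ⟨h1, h2⟩
      cases l with
      | nil => simp at h1
      | cons a l =>
        refine ⟨(a, l), ⟨h2 a (by simp), (ih l).mpr ⟨by simpa using h1, ?_⟩⟩, rfl⟩
        intro v hv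
        exact h2 v (List.mem_cons_of_mem _ hv)

theorem card_lists (R : Finset V) (j : ℕ) : (lists R j).card = R.card ^ j := by
  induction j with
  | zero => simp [lists]
  | succ j ih => simp only [lists]; rw [Finset.card_map, Finset.card_product, ih]; ring

theorem lists_mono {Q R : Finset V} (h : Q ⊆ R) (j : ℕ) : lists Q j ⊆ lists R j := by
  intro l hl
  obtain ⟨h1, h2⟩ := (mem_lists Q j l).mp hl
  exact (mem_lists R j l).mpr ⟨h1, fun v hv => h (h2 v hv)⟩

theorem cons_mem_lists {R : Finset V} {j : ℕ} {v : V} {l : List V} (hv : v ∈ R)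
    (hl : l ∈ lists R j) : v :: l ∈ lists R (j + 1) := by
  obtain ⟨h1, h2⟩ := (mem_lists R j l).mp hl
  refine (mem_lists R _ _).mpr ⟨by simp [h1], ?_⟩
  intro u hu
  rcases List.mem_cons.mp hu with rfl | hu
  · exact hv
  · exact h2 u hu

/-- Restriction of a count to heads in `P` and tails in `Q`. -/
theorem count_sub {P Q R : Finset V} (hP : P ⊆ R) (hQ : Q ⊆ R) (j : ℕ)
    (S : V → List V → Prop) (T : List V → Prop)
    (h : ∀ z ∈ P, ∀ l ∈ lists Q j, S z l → T (z :: l)) :
    ∑ l ∈ lists Q j, ∑ z ∈ P, ind (S z l) ≤ ∑ l ∈ lists R (j + 1), ind (T l) := by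
  rw [sum_lists_succ, Finset.sum_comm]
  calc ∑ z ∈ P, ∑ l ∈ lists Q j, ind (S z l)
      ≤ ∑ z ∈ P, ∑ l ∈ lists Q j, ind (T (z :: l)) :=
        Finset.sum_le_sum fun z hz => Finset.sum_le_sum fun l hl => ind_mono (h z hz l hl)
    _ ≤ ∑ z ∈ P, ∑ l ∈ lists R j, ind (T (z :: l)) :=
        Finset.sum_le_sum fun z _ => Finset.sum_le_sum_of_subset_of_nonneg (lists_mono hQ j)
          fun l _ _ => ind_nonneg _
    _ ≤ _ := Finset.sum_le_sum_of_subset_of_nonneg hP
          fun z _ _ => Finset.sum_nonneg fun l _ => ind_nonneg _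

/-- Many lists without repetition. -/
theorem nd_count [DecidableEq V] (Q : Finset V) (a : ℝ) (ha : 0 ≤ a) : ∀ j : ℕ,
    a + j ≤ Q.card → a ^ j ≤ ∑ l ∈ lists Q j, ind l.Nodup := by
  intro j
  induction j with
  | zero => intro _; rw [sum_lists_zero, ind_pos List.nodup_nil]; simp
  | succ j ih =>
    intro h
    push_cast at h
    have h1 := ih (by linarith)
    rw [sum_lists_succ, Finset.sum_comm, pow_succ]
    calc a ^ j * a ≤ (∑ l ∈ lists Q j, ind l.Nodup) * a := mul_le_mul_of_nonneg_right h1 ha
      _ = ∑ l ∈ lists Q j, ind l.Nodup * a := Finset.sum_mul _ _ _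
      _ ≤ _ := by
        refine Finset.sum_le_sum fun l hl => ?_
        by_cases hn : l.Nodup
        · rw [ind_pos hn, one_mul]
          have hlen := ((mem_lists Q j l).mp hl).1
          have c1 : (Q.card : ℝ) - j ≤ ((Q \ l.toFinset).card : ℝ) := by
            have := Finset.le_card_sdiff l.toFinset Q
            have h2 := List.toFinset_card_le l
            have h3 : Q.card ≤ (Q \ l.toFinset).card + j := by omega
            have h4 : (Q.card : ℝ) ≤ (Q \ l.toFinset).card + j := by exact_mod_cast h3
            linarith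
          calc a ≤ ((Q \ l.toFinset).card : ℝ) := by linarith
            _ = ∑ v ∈ Q \ l.toFinset, ind (v :: l).Nodup := by
                rw [Finset.sum_congr rfl (g := fun _ => (1 : ℝ))]
                · simp
                · intro v hv
                  refine ind_pos (List.nodup_cons.mpr ⟨?_, hn⟩)
                  simpa using (Finset.mem_sdiff.mp hv).2
            _ ≤ _ := Finset.sum_le_sum_of_subset_of_nonneg Finset.sdiff_subset
                fun v _ _ => ind_nonneg _
        · rw [ind_neg hn, zero_mul]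
          exact Finset.sum_nonneg fun v _ => ind_nonneg _

/-- Total weight of symmetric families of lists. -/
theorem sum_weight (R : Finset V) (w : V → ℝ) : ∀ (j : ℕ) (g : List V → ℝ),
    (∀ l l', l.Perm l' → g l = g l') →
    ∑ l ∈ lists R (j + 1), g l * (l.map w).sum =
      (j + 1) * ∑ x ∈ R, (∑ l ∈ lists R j, g (x :: l)) * w x := by
  intro j
  induction j with
  | zero =>
    intro g _
    rw [sum_lists_succ]
    simp [sum_lists_zero]
  | succ j ih =>
    intro g hg
    rw [sum_lists_succ]
    have e1 : ∀ v ∈ R, ∑ l ∈ lists R (j + 1), g (v :: l) * ((v :: l).map w).sum =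
        (∑ l ∈ lists R (j + 1), g (v :: l)) * w v +
        (j + 1) * ∑ x ∈ R, (∑ l ∈ lists R j, g (x :: v :: l)) * w x := by
      intro v _
      have h := ih (fun l => g (v :: l)) (fun l l' h => hg _ _ (h.cons v))
      have e2 : ∀ x ∈ R, (∑ l ∈ lists R j, g (x :: v :: l)) * w x =
          (∑ l ∈ lists R j, g (v :: x :: l)) * w x := by
        intro x _
        congr 1
        exact Finset.sum_congr rfl fun l _ => hg _ _ (List.Perm.swap _ _ _)
      rw [Finset.sum_congr rfl e2, ← h, Finset.sum_mul, ← Finset.sum_add_distrib]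
      refine Finset.sum_congr rfl fun l _ => ?_
      simp only [List.map_cons, List.sum_cons]
      ring
    rw [Finset.sum_congr rfl e1, Finset.sum_add_distrib, ← Finset.mul_sum]
    have e3 : ∑ v ∈ R, ∑ x ∈ R, (∑ l ∈ lists R j, g (x :: v :: l)) * w x =
        ∑ x ∈ R, (∑ l ∈ lists R (j + 1), g (x :: l)) * w x := by
      rw [Finset.sum_comm]
      refine Finset.sum_congr rfl fun x _ => ?_
      rw [sum_lists_succ, Finset.sum_mul]
    rw [e3]
    push_cast
    ring

end

/-- Erdos' box theorem for `k`-tuples. -/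
theorem box (t : ℕ) : ∀ (k : ℕ) (b : ℝ), 0 < b →
    ∃ n0 : ℕ, ∀ (V : Type) [DecidableEq V] (R : Finset V) (T : List V → Prop),
      n0 ≤ R.card → b * (R.card : ℝ) ^ k ≤ ∑ l ∈ lists R k, ind (T l) →
      ∃ X : Fin k → Finset V, (∀ i, X i ⊆ R) ∧ (∀ i, (X i).card = t) ∧
        ∀ x : Fin k → V, (∀ i, x i ∈ X i) → T (List.ofFn x) := by
  intro k
  induction k with
  | zero =>
    intro b hb
    refine ⟨0, ?_⟩
    intro V _ R T _ h
    rw [sum_lists_zero] at h
    refine ⟨Fin.elim0, fun i => i.elim0, fun i => i.elim0, ?_⟩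
    intro x _
    rw [List.ofFn_zero]
    by_contra hT
    rw [ind_neg hT] at h
    simp at h
    linarith
  | succ k ih =>
    intro b hb
    obtain ⟨b1, hb1, a1, h1⟩ := kst t b hb
    obtain ⟨n1, hn1⟩ := ih b1 hb1
    refine ⟨a1 + n1, ?_⟩
    intro V _ R T hR h
    classical
    obtain ⟨X0, hX0, hc0, hb'⟩ := h1 V (List V) R (lists R k) (fun x y => T (x :: y)) (by omega) (by
      rw [sum_lists_succ, Finset.sum_comm] at h
      rw [card_lists]
      push_cast
      have e : b * R.card * (R.card : ℝ) ^ k = b * (R.card : ℝ) ^ (k + 1) := by ring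
      rw [e]
      refine h.trans (le_of_eq ?_)
      exact Finset.sum_congr rfl fun y _ => sum_ind R (fun x => T (x :: y)))
    obtain ⟨X, hXR, hXc, hX⟩ := hn1 V R (fun y => ∀ x ∈ X0, T (x :: y)) (by omega) (by
      rw [card_lists] at hb'
      push_cast at hb'
      rw [sum_ind]
      exact hb')
    refine ⟨Fin.cons X0 X, ?_, ?_, ?_⟩
    · intro i
      refine Fin.cases ?_ (fun i => ?_) i
      · simpa using hX0
      · simpa using hXR i
    · intro i
      refine Fin.cases ?_ (fun i => ?_) i
      · simpa using hc0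
      · simpa using hXc i
    · intro x hx
      rw [List.ofFn_succ]
      refine hX (fun i => x i.succ) (fun i => ?_) (x 0) ?_
      · simpa using hx i.succ
      · simpa using hx 0

end Pool.Agent.Lib.MP_b50c09_co.K
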