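import Mathlib
import Pool.Agent.Lib.MP_b50c09_co.Dual
import Pool.Agent.Lib.MP_b50c09_co.K.Lists

set_option autoImplicit false
set_option linter.unusedSectionVars false
set_option linter.unusedVariables false

namespace Pool.Agent.Lib.MP_b50c09_co.K

open Finset

/-- `E` is the ordered edge relation of a uniform hypergraph. -/
structure SymK {V : Type} (E : List V → Prop) : Prop where
  perm : ∀ l l', l.Perm l' → E l → E l'
  nd : ∀ l, E l → l.Nodup

/-- Number of ways to extend `l` to an ordered edge by `j` vertices of `R`. -/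
noncomputable def ext {V : Type} (E : List V → Prop) (R : Finset V) (j : ℕ) (l : List V) : ℝ :=
  ∑ m ∈ lists R j, ind (E (m ++ l))

/-- `S` is the vertex set of a complete `k`-partite `k`-graph with parts of size `t`. -/
def Blk {V : Type} [DecidableEq V] (E : List V → Prop) (k t : ℕ) (S : Finset V) : Prop :=
  ∃ X : Fin k → Finset V, (∀ i, (X i).card = t) ∧
    (∀ x : Fin k → V, (∀ i, x i ∈ X i) → E (List.ofFn x)) ∧ S = Finset.univ.biUnion X

section
variable {V : Type} [DecidableEq V] {E : List V → Prop}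

theorem SymK.iff (hE : SymK E) {l l' : List V} (h : l.Perm l') : E l ↔ E l' :=
  ⟨hE.perm _ _ h, hE.perm _ _ h.symm⟩

theorem ext_zero (R : Finset V) (l : List V) : ext E R 0 l = ind (E l) := by
  unfold ext
  rw [sum_lists_zero]
  rfl

theorem ext_succ (hE : SymK E) (R : Finset V) (j : ℕ) (l : List V) :
    ext E R (j + 1) l = ∑ v ∈ R, ext E R j (v :: l) := by
  unfold ext
  rw [sum_lists_succ]
  refine Finset.sum_congr rfl fun v _ => Finset.sum_congr rfl fun m _ => ?_
  exact ind_congr (hE.iff (List.perm_middle (a := v) (l₁ := m) (l₂ := l)).symm)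

theorem ext_one (hE : SymK E) (R : Finset V) (l : List V) :
    ext E R 1 l = ∑ v ∈ R, ind (E (v :: l)) := by
  rw [ext_succ hE]
  exact Finset.sum_congr rfl fun v _ => ext_zero R _

theorem ext_single (hE : SymK E) (R : Finset V) (j : ℕ) (v : V) :
    ext E R j [v] = ∑ m ∈ lists R j, ind (E (v :: m)) := by
  unfold ext
  exact Finset.sum_congr rfl fun m _ => ind_congr (hE.iff (List.perm_append_singleton v m))

theorem ext_nonneg (R : Finset V) (j : ℕ) (l : List V) : 0 ≤ ext E R j l :=
  Finset.sum_nonneg fun _ _ => ind_nonneg _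

theorem ext_le (R : Finset V) (j : ℕ) (l : List V) : ext E R j l ≤ (R.card : ℝ) ^ j := by
  unfold ext
  calc _ ≤ ∑ _m ∈ lists R j, (1 : ℝ) := Finset.sum_le_sum fun _ _ => ind_le_one _
    _ = _ := by simp [card_lists]

theorem disj_of_complete (hE : SymK E) {k t : ℕ} (ht : 1 ≤ t) {X : Fin k → Finset V}
    (hX : ∀ i, (X i).card = t) (h : ∀ x : Fin k → V, (∀ i, x i ∈ X i) → E (List.ofFn x))
    (i j : Fin k) (hij : i ≠ j) : Disjoint (X i) (X j) := by
  rw [Finset.disjoint_left]
  intro v hi hj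
  have hne : ∀ i, ∃ u, u ∈ X i := fun i => Finset.card_pos.mp (by rw [hX i]; omega)
  choose x0 hx0 using hne
  let x : Fin k → V := fun a => if a = i ∨ a = j then v else x0 a
  have hx : ∀ a, x a ∈ X a := by
    intro a
    simp only [x]
    split_ifs with ha
    · rcases ha with rfl | rfl
      · exact hi
      · exact hj
    · exact hx0 a
  have hinj := List.nodup_ofFn.mp (hE.nd _ (h x hx))
  exact hij (hinj (by simp [x]))

theorem sum_of_complete (hE : SymK E) {k t : ℕ} (ht : 1 ≤ t) {X : Fin k → Finset V}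
    (hX : ∀ i, (X i).card = t) (h : ∀ x : Fin k → V, (∀ i, x i ∈ X i) → E (List.ofFn x))
    (w : V → ℝ) : ∑ v ∈ Finset.univ.biUnion X, w v = ∑ i, ∑ v ∈ X i, w v :=
  Finset.sum_biUnion fun i _ j _ hij => disj_of_complete hE ht hX h i j hij

theorem Blk.card (hE : SymK E) {k t : ℕ} (ht : 1 ≤ t) {S : Finset V} (hS : Blk E k t S) :
    S.card = k * t := by
  obtain ⟨X, hX, h, rfl⟩ := hS
  rw [Finset.card_biUnion fun i _ j _ hij => disj_of_complete hE ht hX h i j hij]
  simp [hX]

theorem cod_restrict (hE : SymK E) (R : Finset V) (l : List V) (p : V → Prop) [DecidablePred p]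
    (c κ : ℝ) (h1 : c * R.card ≤ ext E R 1 l)
    (h2 : ((R.filter (fun z => ¬ p z)).card : ℝ) ≤ κ * R.card) :
    (c - κ) * R.card ≤ ∑ z ∈ R.filter p, ind (E (z :: l)) := by
  rw [ext_one hE, ← Finset.sum_filter_add_sum_filter_not R p] at h1
  have h3 : ∑ z ∈ R.filter (fun z => ¬ p z), ind (E (z :: l))
      ≤ ((R.filter (fun z => ¬ p z)).card : ℝ) := by
    calc _ ≤ ∑ _z ∈ R.filter (fun z => ¬ p z), (1 : ℝ) :=
          Finset.sum_le_sum fun _ _ => ind_le_one _
      _ = _ := by simp
  linarith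

/-- many edges with all but one vertex in `Q` and the remaining one satisfying `p` -/
theorem count_QP (hE : SymK E) (R : Finset V) (r : ℕ) (c κ : ℝ) (hκ : 0 < κ) (hκc : κ ≤ c)
    (hcod : ∀ l ∈ lists R r, l.Nodup → c * R.card ≤ ext E R 1 l)
    (Q : Finset V) (hQR : Q ⊆ R) (p : V → Prop) [DecidablePred p]
    (hQ : κ * R.card ≤ Q.card) (h2 : 2 * r ≤ κ * R.card)
    (hp : ((R.filter (fun z => ¬ p z)).card : ℝ) ≤ κ * R.card) (T : List V → Prop)
    (hT : ∀ z, p z → ∀ l : List V, l.length = r → (∀ v ∈ l, v ∈ Q) → E (z :: l) → T (z :: l)) :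
    (κ / 2) ^ r * (c - κ) * (R.card : ℝ) ^ (r + 1) ≤ ∑ l ∈ lists R (r + 1), ind (T l) := by
  have hn : (0 : ℝ) ≤ R.card := by positivity
  have a1 := nd_count Q (κ / 2 * R.card) (by positivity) r (by linarith)
  have a2 : ∑ l ∈ lists Q r, ind l.Nodup * ((c - κ) * R.card)
      ≤ ∑ l ∈ lists Q r, ∑ z ∈ R.filter p, ind (E (z :: l)) := by
    refine Finset.sum_le_sum fun l hl => ?_
    by_cases hn : l.Nodup
    · rw [ind_pos hn, one_mul]
      exact cod_restrict hE R l p c κ (hcod l (lists_mono hQR r hl) hn) hp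
    · rw [ind_neg hn, zero_mul]
      exact Finset.sum_nonneg fun _ _ => ind_nonneg _
  have a3 := count_sub (Finset.filter_subset p R) hQR r (fun z l => E (z :: l)) T (by
    intro z hz l hl h
    obtain ⟨h1, h2⟩ := (mem_lists Q r l).mp hl
    exact hT z (Finset.mem_filter.mp hz).2 l h1 h2 h)
  rw [← Finset.sum_mul] at a2
  have a4 := mul_le_mul_of_nonneg_right a1 (mul_nonneg (by linarith : 0 ≤ c - κ) hn)
  have e : (κ / 2) ^ r * (c - κ) * (R.card : ℝ) ^ (r + 1) =
      (κ / 2 * R.card) ^ r * ((c - κ) * R.card) := by rw [mul_pow]; ring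
  rw [e]
  linarith

/-- many lists `x :: l` with `v :: l` and `x :: l` edges, avoiding a small set -/
theorem count_through (hE : SymK E) (R : Finset V) (r : ℕ) (c κ : ℝ) (hκ : 0 < κ) (hκc : κ ≤ c)
    (hκ4 : κ ≤ 1 / 4) (hcod : ∀ l ∈ lists R (r + 1), l.Nodup → c * R.card ≤ ext E R 1 l)
    (p : V → Prop) [DecidablePred p] (h4 : 4 * (r + 1) ≤ R.card)
    (hp : ((R.filter (fun z => ¬ p z)).card : ℝ) ≤ κ * R.card) (v : V) (hv : v ∈ R)
    (T : List V → Prop)
    (hT : ∀ x, p x → ∀ l : List V, (∀ y ∈ l, p y) → E (v :: l) → E (x :: l) → T (x :: l)) :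
    (1 / 2) ^ r * (c - κ) ^ 2 * (R.card : ℝ) ^ (r + 2) ≤ ∑ l ∈ lists R (r + 2), ind (T l) := by
  have hn : (0 : ℝ) ≤ R.card := by positivity
  have hck : 0 ≤ (c - κ) * R.card := mul_nonneg (by linarith) hn
  set P := R.filter p with hP
  have hPR : P ⊆ R := Finset.filter_subset p R
  have hPc : (R.card : ℝ) - κ * R.card ≤ P.card := by
    have := Finset.card_filter_add_card_filter_not (s := R) p
    have h : (P.card : ℝ) + ((R.filter (fun z => ¬ p z)).card : ℝ) = R.card := by
      exact_mod_cast this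
    linarith
  have hPe : (P.card : ℝ) - 1 ≤ (P.erase v).card := by
    have := Finset.pred_card_le_card_erase (s := P) (a := v)
    have h : P.card ≤ (P.erase v).card + 1 := by omega
    have h' : (P.card : ℝ) ≤ (P.erase v).card + 1 := by exact_mod_cast h
    linarith
  have h4' : 4 * ((r : ℝ) + 1) ≤ R.card := by exact_mod_cast h4
  have a1 := nd_count (P.erase v) (1 / 2 * R.card) (by positivity) r (by nlinarith)
  have a2 : ∑ l ∈ lists (P.erase v) r, ind l.Nodup * ((c - κ) * R.card)
      ≤ ∑ l ∈ lists (P.erase v) r, ∑ z ∈ P, ind (E (z :: v :: l)) := by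
    refine Finset.sum_le_sum fun l hl => ?_
    by_cases hn : l.Nodup
    · rw [ind_pos hn, one_mul]
      refine cod_restrict hE R (v :: l) p c κ (hcod _ (cons_mem_lists hv
        (lists_mono ((Finset.erase_subset _ _).trans hPR) r hl)) ?_) hp
      refine List.nodup_cons.mpr ⟨fun h => ?_, hn⟩
      exact Finset.notMem_erase v P (((mem_lists _ r l).mp hl).2 v h)
    · rw [ind_neg hn, zero_mul]
      exact Finset.sum_nonneg fun _ _ => ind_nonneg _
  have a3 := count_sub (R := P) (Finset.Subset.refl P) (Finset.erase_subset v P) r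
    (fun z l => E (z :: v :: l)) (fun l => E (v :: l))
    (fun z _ l _ h => hE.perm _ _ (List.Perm.swap _ _ _) h)
  have a5 : ∑ l ∈ lists P (r + 1), ind (E (v :: l)) * ((c - κ) * R.card)
      ≤ ∑ l ∈ lists P (r + 1), ∑ x ∈ P, ind (E (v :: l) ∧ E (x :: l)) := by
    refine Finset.sum_le_sum fun l hl => ?_
    by_cases hn : E (v :: l)
    · rw [ind_pos hn, one_mul]
      refine (cod_restrict hE R l p c κ (hcod l (lists_mono hPR _ hl)
        (List.nodup_cons.mp (hE.nd _ hn)).2) hp).trans (le_of_eq ?_)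
      exact Finset.sum_congr rfl fun x _ => ind_congr ⟨fun h => ⟨hn, h⟩, fun h => h.2⟩
    · rw [ind_neg hn, zero_mul]
      exact Finset.sum_nonneg fun _ _ => ind_nonneg _
  have a6 := count_sub hPR hPR (r + 1) (fun x l => E (v :: l) ∧ E (x :: l)) T (by
    intro x hx l hl h
    exact hT x (Finset.mem_filter.mp hx).2 l
      (fun y hy => (Finset.mem_filter.mp (((mem_lists P _ l).mp hl).2 y hy)).2) h.1 h.2)
  rw [← Finset.sum_mul] at a2 a5
  have a7 := mul_le_mul_of_nonneg_right a1 hck
  have a8 := mul_le_mul_of_nonneg_right (a7.trans (a2.trans a3)) hck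
  have e : (1 / 2) ^ r * (c - κ) ^ 2 * (R.card : ℝ) ^ (r + 2) =
      (1 / 2 * R.card) ^ r * ((c - κ) * R.card) * ((c - κ) * R.card) := by rw [mul_pow]; ring
  rw [e]
  exact a8.trans (a5.trans a6)

theorem list_sum_le (l : List V) (w : V → ℝ) (B : ℝ) (h : ∀ v ∈ l, w v ≤ B) :
    (l.map w).sum ≤ l.length * B := by
  induction l with
  | nil => simp
  | cons a l ih =>
    have h1 := h a (by simp)
    have h2 := ih fun v hv => h v (List.mem_cons_of_mem _ hv)
    simp only [List.map_cons, List.sum_cons, List.length_cons]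
    push_cast
    linarith

theorem le_list_sum (l : List V) (w : V → ℝ) (B : ℝ) (h : ∀ v ∈ l, B ≤ w v) :
    l.length * B ≤ (l.map w).sum := by
  induction l with
  | nil => simp
  | cons a l ih =>
    have h1 := h a (by simp)
    have h2 := ih fun v hv => h v (List.mem_cons_of_mem _ hv)
    simp only [List.map_cons, List.sum_cons, List.length_cons]
    push_cast
    linarith

end

/-- The dual lemma: in an almost regular `(r+2)`-graph, `r ≥ 1`, with linear codegrees every
weighting of nonnegative total weight gives nonnegative weight to some block. -/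
theorem dual (r t : ℕ) (hr : 1 ≤ r) (ht : 1 ≤ t) (c : ℝ) (hc : 0 < c) (hc1 : c ≤ 1) :
    ∃ d : ℝ, 0 < d ∧ ∃ n0 : ℕ, ∀ (V : Type) [DecidableEq V] (E : List V → Prop)
      (R : Finset V), SymK E → n0 ≤ R.card →
      (∀ l ∈ lists R (r + 1), l.Nodup → c * R.card ≤ ext E R 1 l) →
      (∀ u ∈ R, ∀ v ∈ R,
        ext E R (r + 1) [u] ≤ ext E R (r + 1) [v] + d * (R.card : ℝ) ^ (r + 1)) →
      ∀ w : V → ℝ, 0 ≤ ∑ v ∈ R, w v → ∃ S ⊆ R, Blk E (r + 2) t S ∧ 0 ≤ ∑ v ∈ S, w v := by
  obtain ⟨κ, hκ⟩ : ∃ κ : ℝ, κ = c / 4 := ⟨_, rfl⟩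
  have hk0 : 0 < κ := by rw [hκ]; positivity
  have hkc : κ ≤ c := by linarith
  have hk4 : κ ≤ 1 / 4 := by linarith
  have hck : 0 < c - κ := by linarith
  obtain ⟨th, hth⟩ : ∃ th : ℝ, th = (κ / 2) ^ (r + 1) * (c - κ) := ⟨_, rfl⟩
  have hth0 : 0 < th := by rw [hth]; positivity
  have htR : (1 : ℝ) ≤ t := by exact_mod_cast ht
  have hrR : (1 : ℝ) ≤ r := by exact_mod_cast hr
  obtain ⟨k, hk⟩ : ∃ k : ℝ, k = r + 2 := ⟨_, rfl⟩
  have hk3 : 3 ≤ k := by linarith
  obtain ⟨b, hb⟩ : ∃ b : ℝ, b = th / (2 * k ^ 2 * t) := ⟨_, rfl⟩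
  have hb0 : 0 < b := by rw [hb]; positivity
  have hbth : b ≤ th := by
    rw [hb]
    apply div_le_self hth0.le
    nlinarith
  obtain ⟨n1, hn1⟩ := box t (r + 2) b hb0
  obtain ⟨n2, hn2⟩ := box t (r + 2) ((1 / 2) ^ r * (c - κ) ^ 2) (by positivity)
  refine ⟨b, hb0, n1 + n2 + ⌈2 * (r + 1) / κ⌉₊ + 4 * (r + 1), ?_⟩
  intro V _ E R hE hR hcod hdg w hw
  classical
  by_contra hcon
  push Not at hcon
  have hRne : R.Nonempty := Finset.card_pos.mp (by omega)
  have hn0 : (0 : ℝ) < R.card := by exact_mod_cast (by omega : 0 < R.card)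
  have hkn : 2 * ((r + 1 : ℕ) : ℝ) ≤ κ * R.card := by
    have e1 : (2 * (r + 1) / κ : ℝ) ≤ ⌈2 * (r + 1) / κ⌉₊ := Nat.le_ceil _
    have e2 : ((⌈2 * (r + 1) / κ⌉₊ : ℕ) : ℝ) ≤ R.card := Nat.cast_le.mpr (by omega)
    have := le_trans e1 e2
    rw [div_le_iff₀ hk0] at this
    push_cast
    linarith
  obtain ⟨m, hLp, hLm⟩ := exists_quantile R hRne w (κ * R.card) (by positivity) (by nlinarith)
  -- Step 1: every weight is below `(kt-1)(-m)`
  have step1 : ∀ v ∈ R, w v + (k * t - 1) * m < 0 := by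
    intro v hv
    have hc3 := count_through hE R r c κ hk0 hkc hk4 hcod (fun u => m ≤ w u) (by omega) hLm.le v hv
      (fun l => (∀ y ∈ l, m ≤ w y) ∧ E (v :: l.tail) ∧ E l) (by
        intro x hx l hl h1 h2
        refine ⟨?_, h1, h2⟩
        intro y hy
        rcases List.mem_cons.mp hy with rfl | hy
        · exact hx
        · exact hl y hy)
    obtain ⟨X, hXR, hXc, hall⟩ := hn2 V R _ (by omega) hc3
    have hne : ∀ i, ∃ u, u ∈ X i := fun i => Finset.card_pos.mp (by rw [hXc i]; omega)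
    choose x0 hx0 using hne
    have hXm : ∀ i, ∀ u ∈ X i, m ≤ w u := by
      intro i u hu
      have h := (hall (Function.update x0 i u) (by
        intro j
        by_cases hj : j = i
        · subst hj; simpa using hu
        · rw [Function.update_of_ne hj]; exact hx0 j)).1 u
      exact h (List.mem_ofFn.mpr ⟨i, by simp⟩)
    have hcard : t - 1 ≤ ((X 0).erase v).card := by
      have := Finset.pred_card_le_card_erase (s := X 0) (a := v)
      rw [hXc 0] at this
      exact this
    obtain ⟨X', hX', hX'c⟩ := Finset.exists_subset_card_eq hcard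
    have hvX' : v ∉ X' := fun h => Finset.notMem_erase v _ (hX' h)
    have hX'X : X' ⊆ X 0 := hX'.trans (Finset.erase_subset _ _)
    have hc' : (insert v X').card = t := by
      rw [Finset.card_insert_of_notMem hvX', hX'c]
      omega
    let Y : Fin (r + 2) → Finset V := Fin.cons (insert v X') (fun i => X i.succ)
    have hY0 : Y 0 = insert v X' := rfl
    have hYs : ∀ i : Fin (r + 1), Y i.succ = X i.succ := fun i => rfl
    have hYc : ∀ i, (Y i).card = t := by
      intro i
      refine Fin.cases ?_ (fun i => ?_) i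
      · rw [hY0, hc']
      · rw [hYs, hXc]
    have hcomp : ∀ x : Fin (r + 2) → V, (∀ i, x i ∈ Y i) → E (List.ofFn x) := by
      intro x hx
      have h0 := hx 0
      rw [hY0, Finset.mem_insert] at h0
      rcases h0 with h0 | h0
      · have h := (hall (Fin.cons (x0 0) (fun i => x i.succ)) (by
          intro i
          refine Fin.cases ?_ (fun i => ?_) i
          · exact hx0 0
          · exact hx i.succ)).2.1
        rw [List.ofFn_succ] at h ⊢
        rw [h0]
        exact h
      · refine (hall x ?_).2.2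
        intro i
        refine Fin.cases ?_ (fun i => ?_) i
        · exact hX'X h0
        · exact hx i.succ
    have hneg := hcon (Finset.univ.biUnion Y) (by
      refine Finset.biUnion_subset.mpr fun i _ => ?_
      refine Fin.cases ?_ (fun i => ?_) i
      · exact Finset.insert_subset hv (hX'X.trans (hXR 0))
      · exact hXR i.succ) ⟨Y, hYc, hcomp, rfl⟩
    rw [sum_of_complete hE ht hYc hcomp, Fin.sum_univ_succ, hY0, Finset.sum_insert hvX'] at hneg
    have b1 : (X'.card : ℝ) * m ≤ ∑ x ∈ X', w x := by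
      have := Finset.card_nsmul_le_sum X' w m (fun x hx => hXm 0 x (hX'X hx))
      simpa using this
    have b2 : ∑ _i : Fin (r + 1), (t : ℝ) * m ≤ ∑ i : Fin (r + 1), ∑ x ∈ Y i.succ, w x := by
      refine Finset.sum_le_sum fun i _ => ?_
      have := Finset.card_nsmul_le_sum (X i.succ) w m (fun x hx => hXm _ x hx)
      rw [hXc] at this
      rw [hYs]
      simpa using this
    rw [hX'c, Nat.cast_sub ht] at b1
    rw [Finset.sum_const, Finset.card_univ, Fintype.card_fin, nsmul_eq_mul] at b2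
    push_cast at b1 b2
    rw [hk]
    linarith
  have hkt : 3 ≤ k * t := by nlinarith
  have hm : m < 0 := by
    obtain ⟨v, hv, hv0⟩ : ∃ v ∈ R, (0 : ℝ) ≤ w v := by
      by_contra h
      push Not at h
      have := Finset.sum_neg h hRne
      linarith
    have := step1 v hv
    by_contra h
    push Not at h
    have : 0 ≤ (k * (t : ℝ) - 1) * m := mul_nonneg (by linarith) h
    linarith
  obtain ⟨B, hB⟩ : ∃ B : ℝ, B = k * t * (-m) := ⟨_, rfl⟩
  have hB0 : 0 < B := by
    rw [hB]
    apply mul_pos <;> linarith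
  have hwB : ∀ v ∈ R, w v ≤ B := by
    intro v hv
    have := step1 v hv
    rw [hB]
    linarith
  -- Step 2: few edges of nonnegative weight
  have step2 : ∑ l ∈ lists R (r + 2), ind (E l ∧ 0 ≤ (l.map w).sum)
      < b * (R.card : ℝ) ^ (r + 2) := by
    by_contra h
    push Not at h
    obtain ⟨X, hXR, hXc, hall⟩ := hn1 V R _ (by omega) h
    have hmin : ∀ i, ∃ u ∈ X i, ∀ u' ∈ X i, w u ≤ w u' := fun i =>
      Finset.exists_min_image (X i) w (Finset.card_pos.mp (by rw [hXc i]; omega))
    choose x0 hx0 hxm using hmin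
    have hcomp : ∀ x : Fin (r + 2) → V, (∀ i, x i ∈ X i) → E (List.ofFn x) :=
      fun x hx => (hall x hx).1
    have hneg := hcon (Finset.univ.biUnion X) (Finset.biUnion_subset.mpr fun i _ => hXR i)
      ⟨X, hXc, hcomp, rfl⟩
    rw [sum_of_complete hE ht hXc hcomp] at hneg
    have b1 : ∑ i, (t : ℝ) * w (x0 i) ≤ ∑ i, ∑ x ∈ X i, w x := by
      refine Finset.sum_le_sum fun i _ => ?_
      have := Finset.card_nsmul_le_sum (X i) w _ (hxm i)
      rw [hXc] at this
      simpa using this
    have b4 := (hall x0 hx0).2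
    rw [List.map_ofFn, List.sum_ofFn] at b4
    rw [← Finset.mul_sum] at b1
    have b5 : 0 ≤ (t : ℝ) * ∑ i, w (x0 i) := mul_nonneg (by linarith) b4
    linarith
  have hn3 : 0 < (R.card : ℝ) ^ (r + 2) := by positivity
  -- Step 3: few vertices of large weight
  have step3 : ((R.filter (fun z => ¬ w z ≤ -m / 2)).card : ℝ) ≤ κ * R.card := by
    by_contra h
    push Not at h
    have h' : κ * R.card ≤ ((R.filter (fun z => ¬ w z ≤ -m / 2)).card : ℝ) := by
      simpa using h.le
    have hc3 := count_QP hE R (r + 1) c κ hk0 hkc hcod _ (Finset.filter_subset _ R)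
      (fun u => m ≤ w u) h' hkn hLm.le (fun l => E l ∧ 0 ≤ (l.map w).sum) (by
        intro z hz l hl hQ he
        refine ⟨he, ?_⟩
        have := le_list_sum l w (-m / 2)
          (fun v hv => (not_le.mp (Finset.mem_filter.mp (hQ v hv)).2).le)
        rw [hl] at this
        push_cast at this
        simp only [List.map_cons, List.sum_cons]
        nlinarith)
    rw [← hth] at hc3
    have h9 : b * (R.card : ℝ) ^ (r + 2) ≤ th * (R.card : ℝ) ^ (r + 2) :=
      mul_le_mul_of_nonneg_right hbth hn3.le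
    exact absurd (lt_of_le_of_lt (le_trans h9 hc3) step2) (lt_irrefl _)
  -- Step 4: compare the two evaluations of the total edge weight
  have hc4 := count_QP hE R (r + 1) c κ hk0 hkc hcod _ (Finset.filter_subset _ R)
    (fun z => w z ≤ -m / 2) hLp hkn step3 (fun l => E l ∧ (l.map w).sum ≤ 3 / 2 * m) (by
      intro z hz l hl hQ he
      refine ⟨he, ?_⟩
      have := list_sum_le l w m (fun v hv => (Finset.mem_filter.mp (hQ v hv)).2)
      rw [hl] at this
      push_cast at this
      simp only [List.map_cons, List.sum_cons]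
      nlinarith)
  rw [← hth] at hc4
  have upper : ∑ l ∈ lists R (r + 2), ind (E l) * (l.map w).sum
      ≤ k * B * ∑ l ∈ lists R (r + 2), ind (E l ∧ 0 ≤ (l.map w).sum)
        + 3 / 2 * m * ∑ l ∈ lists R (r + 2), ind (E l ∧ (l.map w).sum ≤ 3 / 2 * m) := by
    simp only [Finset.mul_sum, ← Finset.sum_add_distrib]
    refine Finset.sum_le_sum fun l hl => ?_
    obtain ⟨l1, l2⟩ := (mem_lists R _ l).mp hl
    have a1 := list_sum_le l w B (fun v hv => hwB v (l2 v hv))
    rw [l1] at a1
    push_cast at a1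
    rw [← hk] at a1
    by_cases h1 : E l
    · by_cases h2 : (l.map w).sum ≤ 3 / 2 * m
      · rw [ind_pos h1, ind_neg (fun h => by linarith [h.2]), ind_pos ⟨h1, h2⟩]
        linarith
      · rw [ind_pos h1, ind_neg (p := E l ∧ (l.map w).sum ≤ 3 / 2 * m) (fun h => h2 h.2)]
        by_cases h3 : 0 ≤ (l.map w).sum
        · rw [ind_pos ⟨h1, h3⟩]
          linarith
        · rw [ind_neg (fun h => h3 h.2)]
          linarith
    · rw [ind_neg h1, ind_neg (fun h => h1 h.1), ind_neg (fun h => h1 h.1)]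
      simp
  have lower : -(b * (R.card : ℝ) ^ (r + 2) * B) ≤ ∑ x ∈ R, ext E R (r + 1) [x] * w x := by
    obtain ⟨v, hv, hmax⟩ := Finset.exists_max_image R (fun x => ext E R (r + 1) [x]) hRne
    have hD : 0 ≤ ext E R (r + 1) [v] := ext_nonneg _ _ _
    have e1 : ∀ x ∈ R, ext E R (r + 1) [v] * w x - b * (R.card : ℝ) ^ (r + 1) * B
        ≤ ext E R (r + 1) [x] * w x := by
      intro x hx
      have a1 := hmax x hx
      have a2 := hdg v hv x hx
      have a3 := hwB x hx
      have a4 : (ext E R (r + 1) [v] - ext E R (r + 1) [x]) * w x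
          ≤ (ext E R (r + 1) [v] - ext E R (r + 1) [x]) * B :=
        mul_le_mul_of_nonneg_left a3 (by linarith)
      have a5 : (ext E R (r + 1) [v] - ext E R (r + 1) [x]) * B
          ≤ (b * (R.card : ℝ) ^ (r + 1)) * B :=
        mul_le_mul_of_nonneg_right (by linarith) hB0.le
      linarith
    have e2 := Finset.sum_le_sum e1
    rw [Finset.sum_sub_distrib, ← Finset.mul_sum, Finset.sum_const, nsmul_eq_mul] at e2
    have e3 : 0 ≤ ext E R (r + 1) [v] * ∑ x ∈ R, w x := mul_nonneg hD hw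
    have e4 : (R.card : ℝ) * (b * (R.card : ℝ) ^ (r + 1) * B)
        = b * (R.card : ℝ) ^ (r + 2) * B := by ring
    linarith
  have hsw := sum_weight R w (r + 1) (fun l => ind (E l)) (fun l l' h => ind_congr (hE.iff h))
  have hsw2 : ∑ x ∈ R, (∑ l ∈ lists R (r + 1), ind (E (x :: l))) * w x
      = ∑ x ∈ R, ext E R (r + 1) [x] * w x :=
    Finset.sum_congr rfl fun x _ => by rw [ext_single hE]
  have hkk : (((r + 1 : ℕ) : ℝ) + 1) = k := by rw [hk]; push_cast; ring
  rw [hsw2, hkk] at hsw
  rw [hsw] at upper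
  have f0 := mul_le_mul_of_nonneg_left lower (by linarith : 0 ≤ k)
  have f1 := mul_le_mul_of_nonneg_left step2.le (by positivity : 0 ≤ k * B)
  have f2 := mul_le_mul_of_nonpos_left hc4 (by linarith : 3 / 2 * m ≤ 0)
  have f3 : 2 * k * (b * B) = th * (-m) := by
    rw [hb, hB]
    field_simp
  have f4 : 0 < th * (-m) * (R.card : ℝ) ^ (r + 2) := by
    apply mul_pos _ hn3
    apply mul_pos hth0
    linarith
  have f5 : 2 * k * (b * B) * (R.card : ℝ) ^ (r + 2) = th * (-m) * (R.card : ℝ) ^ (r + 2) := by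
    rw [f3]
  have e5 : r + 1 + 1 = r + 2 := rfl
  rw [e5] at f2
  nlinarith

end Pool.Agent.Lib.MP_b50c09_co.K
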