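import Mathlib
import Pool.Agent.Lib.MP_b50c09_co.Epoch
import Pool.Agent.Lib.MP_b50c09_co.K.Dual

set_option autoImplicit false
set_option linter.unusedSectionVars false
set_option linter.unusedVariables false

namespace Pool.Agent.Lib.MP_b50c09_co.K

open Finset

/-- `Reach B R W`: `W` arises from `R` by successively deleting sets with property `B`. -/
inductive Reach {V : Type} [DecidableEq V] (B : Finset V → Prop) (R : Finset V) :
    Finset V → Prop
  | refl : Reach B R R
  | step (W S : Finset V) : Reach B R W → S ⊆ W → B S → Reach B R (W \ S)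

section
variable {V : Type} [DecidableEq V] {B : Finset V → Prop}

theorem Reach.subset {R W : Finset V} (h : Reach B R W) : W ⊆ R := by
  induction h with
  | refl => exact Finset.Subset.refl _
  | step W S _ _ _ ih => exact Finset.sdiff_subset.trans ih

theorem Reach.trans {R W U : Finset V} (h1 : Reach B R W) (h2 : Reach B W U) :
    Reach B R U := by
  induction h2 with
  | refl => exact h1
  | step W' S _ hS hB ih => exact Reach.step W' S ih hS hB

/-- Derandomised greedy removal of blocks keeping a family of linear tests balanced. -/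
theorem greedy {h : ℕ} (hh : 1 ≤ h) (hB : ∀ S, B S → S.card = h) {ι : Type} (J : Finset ι)
    (f : ι → V → ℝ)
    (R : Finset V) (hf : ∀ j ∈ J, ∀ v ∈ R, |f j v| ≤ 1) (hf0 : ∀ j ∈ J, ∑ v ∈ R, f j v = 0)
    (l L : ℝ) (hl : 0 < l) (hlH : l * h ≤ 1)
    (hL : 2 * J.card * Real.exp (l ^ 2 * (h : ℝ) ^ 2 * R.card) ≤ Real.exp (l * L))
    (n1 : ℕ) (hn1 : n1 ≤ R.card) (hn1' : h ≤ n1)
    (hdual : ∀ W ⊆ R, n1 ≤ W.card → (∀ j ∈ J, |∑ v ∈ W, f j v| ≤ L) →
      ∀ w : V → ℝ, 0 ≤ ∑ v ∈ W, w v → ∃ S ⊆ W, B S ∧ 0 ≤ ∑ v ∈ S, w v) :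
    ∃ W, Reach B R W ∧ W.card < n1 ∧ n1 ≤ W.card + h ∧ ∀ j ∈ J, |∑ v ∈ W, f j v| ≤ L := by
  set H : ℝ := (h : ℝ) with hH
  let Φ : Finset V → ℝ := fun W =>
    ∑ j ∈ J, (Real.exp (l * ∑ v ∈ W, f j v) + Real.exp (l * -(∑ v ∈ W, f j v)))
  have good : ∀ (W : Finset V) (i : ℕ), i ≤ R.card →
      Φ W ≤ 2 * J.card * (1 + l ^ 2 * H ^ 2) ^ i → ∀ j ∈ J, |∑ v ∈ W, f j v| ≤ L := by
    intro W i hi hΦ j hj
    have a1 : (1 + l ^ 2 * H ^ 2) ^ i ≤ Real.exp (l ^ 2 * H ^ 2 * R.card) := by
      calc (1 + l ^ 2 * H ^ 2) ^ i ≤ (Real.exp (l ^ 2 * H ^ 2)) ^ i := by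
            apply pow_le_pow_left₀ (by positivity)
            have := Real.add_one_le_exp (l ^ 2 * H ^ 2)
            linarith
        _ = Real.exp (l ^ 2 * H ^ 2 * i) := by rw [← Real.exp_nat_mul]; congr 1; ring
        _ ≤ _ := by
            apply Real.exp_le_exp.mpr
            apply mul_le_mul_of_nonneg_left _ (by positivity)
            exact_mod_cast hi
    have a2 : Φ W ≤ Real.exp (l * L) := by
      refine le_trans hΦ (le_trans ?_ hL)
      apply mul_le_mul_of_nonneg_left a1 (by positivity)
    have a3 : Real.exp (l * ∑ v ∈ W, f j v) + Real.exp (l * -(∑ v ∈ W, f j v)) ≤ Φ W := by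
      apply Finset.single_le_sum (f := fun j =>
        Real.exp (l * ∑ v ∈ W, f j v) + Real.exp (l * -(∑ v ∈ W, f j v))) _ hj
      intro i _
      positivity
    have p1 := Real.exp_pos (l * ∑ v ∈ W, f j v)
    have p2 := Real.exp_pos (l * -(∑ v ∈ W, f j v))
    have a4 : l * ∑ v ∈ W, f j v ≤ l * L := Real.exp_le_exp.mp (by linarith)
    have a5 : l * -(∑ v ∈ W, f j v) ≤ l * L := Real.exp_le_exp.mp (by linarith)
    rw [abs_le]
    constructor
    · have := le_of_mul_le_mul_left a5 hl
      linarith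
    · exact le_of_mul_le_mul_left a4 hl
  have main : ∀ i : ℕ, n1 + h * i ≤ R.card + h →
      ∃ W, Reach B R W ∧ W.card + h * i = R.card ∧
        Φ W ≤ 2 * J.card * (1 + l ^ 2 * H ^ 2) ^ i := by
    intro i
    induction i with
    | zero =>
      intro _
      refine ⟨R, Reach.refl, by simp, ?_⟩
      have : Φ R = 2 * J.card := by
        simp only [Φ]
        rw [Finset.sum_congr rfl (g := fun _ => (2 : ℝ))]
        · simp [mul_comm]
        · intro j hj
          rw [hf0 j hj]
          norm_num
      rw [this]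
      simp
    | succ i ih =>
      intro hi
      have e0 : h * (i + 1) = h * i + h := by ring
      obtain ⟨W, hW, hWc, hΦ⟩ := ih (by omega)
      have hiR : i ≤ R.card := by
        have : i ≤ h * i := Nat.le_mul_of_pos_left i (by omega)
        omega
      have hg := good W i hiR hΦ
      let w : V → ℝ := fun v => ∑ j ∈ J,
        (Real.exp (l * ∑ u ∈ W, f j u) - Real.exp (l * -(∑ u ∈ W, f j u))) * f j v
      have hsumw : ∀ S : Finset V, ∑ v ∈ S, w v = ∑ j ∈ J,
          (Real.exp (l * ∑ u ∈ W, f j u) - Real.exp (l * -(∑ u ∈ W, f j u))) * ∑ v ∈ S, f j v := by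
        intro S
        simp only [w]
        rw [Finset.sum_comm]
        apply Finset.sum_congr rfl
        intro j _
        exact (Finset.mul_sum _ _ _).symm
      have hw0 : 0 ≤ ∑ v ∈ W, w v := by
        rw [hsumw]
        apply Finset.sum_nonneg
        intro j _
        set y := ∑ u ∈ W, f j u
        rcases le_total 0 y with hy | hy
        · apply mul_nonneg _ hy
          have : Real.exp (l * -y) ≤ Real.exp (l * y) :=
            Real.exp_le_exp.mpr (by nlinarith)
          linarith
        · apply mul_nonneg_of_nonpos_of_nonpos _ hy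
          have : Real.exp (l * y) ≤ Real.exp (l * -y) :=
            Real.exp_le_exp.mpr (by nlinarith)
          linarith
      obtain ⟨S, hSW, hSB, hS0⟩ := hdual W hW.subset (by omega) hg w hw0
      have hSc : S.card = h := hB S hSB
      refine ⟨W \ S, Reach.step W S hW hSW hSB, ?_, ?_⟩
      · rw [Finset.card_sdiff_of_subset hSW]
        have := Finset.card_le_card hSW
        omega
      · have b1 : Φ (W \ S) ≤ Φ W * (1 + l ^ 2 * H ^ 2) - l * ∑ v ∈ S, w v := by
          rw [hsumw]
          simp only [Φ]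
          rw [Finset.sum_mul, Finset.mul_sum, ← Finset.sum_sub_distrib]
          apply Finset.sum_le_sum
          intro j hj
          rw [Finset.sum_sdiff_eq_sub hSW]
          set y := ∑ u ∈ W, f j u
          set s := ∑ u ∈ S, f j u with hs
          have hsH : |s| ≤ H := by
            calc |s| ≤ ∑ u ∈ S, |f j u| := Finset.abs_sum_le_sum_abs _ _
              _ ≤ ∑ _u ∈ S, (1 : ℝ) :=
                Finset.sum_le_sum (fun u hu => hf j hj u (hW.subset (hSW hu)))
              _ = H := by simp [hSc, hH]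
          have c1 := exp_step y s l H hl hsH hlH
          have c2 := exp_step (-y) (-s) l H hl (by rwa [abs_neg]) hlH
          have e : -(y - s) = -y - -s := by ring
          rw [e]
          linarith
        have b2 : 0 ≤ l * ∑ v ∈ S, w v := mul_nonneg hl.le hS0
        have b3 : Φ W * (1 + l ^ 2 * H ^ 2)
            ≤ 2 * J.card * (1 + l ^ 2 * H ^ 2) ^ i * (1 + l ^ 2 * H ^ 2) :=
          mul_le_mul_of_nonneg_right hΦ (by positivity)
        rw [pow_succ, ← mul_assoc]
        linarith
  set i := (R.card - n1) / h + 1 with hi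
  have hdm := Nat.div_add_mod (R.card - n1) h
  have hmod := Nat.mod_lt (R.card - n1) (by omega : h > 0)
  have e0 : h * i = h * ((R.card - n1) / h) + h := by rw [hi]; ring
  obtain ⟨W, hW, hWc, hΦ⟩ := main i (by omega)
  have hiR : i ≤ R.card := by
    have : i ≤ h * i := Nat.le_mul_of_pos_left i (by omega)
    omega
  exact ⟨W, hW, by omega, by omega, good W i hiR hΦ⟩

end

end Pool.Agent.Lib.MP_b50c09_co.K
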