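import Mathlib
import Pool.Agent.Lib.MP_b50c09_co.K.Greedy

set_option autoImplicit false
set_option linter.unusedSectionVars false
set_option linter.unusedVariables false

namespace Pool.Agent.Lib.MP_b50c09_co.K

open Finset

section
variable {V : Type} [DecidableEq V] (E : List V → Prop)

/-- The centred test functions attached to a vertex set `R`. -/
noncomputable def test (R : Finset V) (p : ℕ × List V) (y : V) : ℝ :=
  ext E R p.1 (y :: p.2) / (R.card : ℝ) ^ p.1 - ext E R (p.1 + 1) p.2 / (R.card : ℝ) ^ (p.1 + 1)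

/-- The index set of the tests. -/
def idx (R : Finset V) (k : ℕ) : Finset (ℕ × List V) :=
  (Finset.range k) ×ˢ ((Finset.range k).biUnion (lists R))

theorem card_idx (R : Finset V) (k : ℕ) (hR : 1 ≤ R.card) :
    (idx R k).card ≤ k * (k * R.card ^ k) := by
  unfold idx
  rw [Finset.card_product, Finset.card_range]
  refine Nat.mul_le_mul_left _ (Finset.card_biUnion_le.trans ?_)
  calc ∑ j ∈ Finset.range k, (lists R j).card ≤ ∑ _j ∈ Finset.range k, R.card ^ k := by
        refine Finset.sum_le_sum fun j hj => ?_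
        rw [card_lists]
        exact Nat.pow_le_pow_right hR (Finset.mem_range.mp hj).le
    _ = _ := by simp

theorem test_abs_le (R : Finset V) (hR : 0 < R.card) (p : ℕ × List V) (v : V) :
    |test E R p v| ≤ 1 := by
  have hn : (0 : ℝ) < R.card := by exact_mod_cast hR
  have h1 : ∀ j l, 0 ≤ ext E R j l / (R.card : ℝ) ^ j := fun j l =>
    div_nonneg (ext_nonneg R j l) (by positivity)
  have h2 : ∀ j l, ext E R j l / (R.card : ℝ) ^ j ≤ 1 := fun j l =>
    (div_le_one (by positivity)).mpr (ext_le R j l)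
  unfold test
  have := h1 p.1 (v :: p.2)
  have := h2 p.1 (v :: p.2)
  have := h1 (p.1 + 1) p.2
  have := h2 (p.1 + 1) p.2
  rw [abs_le]
  constructor <;> linarith

theorem test_sum (hE : SymK E) (R : Finset V) (hR : 0 < R.card) (p : ℕ × List V) :
    ∑ v ∈ R, test E R p v = 0 := by
  have hn : (0 : ℝ) < R.card := by exact_mod_cast hR
  unfold test
  rw [Finset.sum_sub_distrib, Finset.sum_const, nsmul_eq_mul, ← Finset.sum_div, ← ext_succ hE]
  field_simp
  ring

theorem transfer (hE : SymK E) (R W : Finset V) (hW : W ⊆ R) (k : ℕ) (L : ℝ)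
    (h : ∀ p ∈ idx R k, |∑ v ∈ W, test E R p v| ≤ L) : ∀ (j : ℕ) (l : List V),
    (∀ v ∈ l, v ∈ R) → l.length + (j + 1) ≤ k →
    |ext E W (j + 1) l - (W.card : ℝ) ^ (j + 1) * (ext E R (j + 1) l / (R.card : ℝ) ^ (j + 1))|
      ≤ (j + 1) * (W.card : ℝ) ^ j * L := by
  have hm : (0 : ℝ) ≤ W.card := by positivity
  have base : ∀ (j : ℕ) (l : List V), (∀ v ∈ l, v ∈ R) → l.length + (j + 1) ≤ k →
      |∑ y ∈ W, ext E R j (y :: l) / (R.card : ℝ) ^ j -
        W.card * (ext E R (j + 1) l / (R.card : ℝ) ^ (j + 1))| ≤ L := by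
    intro j l hl hk
    have := h (j, l) (by
      unfold idx
      refine Finset.mem_product.mpr ⟨Finset.mem_range.mpr (by simp only; omega), ?_⟩
      exact Finset.mem_biUnion.mpr ⟨l.length, Finset.mem_range.mpr (by omega),
        (mem_lists R _ l).mpr ⟨rfl, hl⟩⟩)
    simp only [test] at this
    rw [Finset.sum_sub_distrib, Finset.sum_const, nsmul_eq_mul] at this
    exact this
  intro j
  induction j with
  | zero =>
    intro l hl hk
    have := base 0 l hl hk
    simp only [pow_zero, div_one, ext_zero] at this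
    rw [zero_add, ext_one hE W]
    simpa using this
  | succ j ih =>
    intro l hl hk
    have h1 := base (j + 1) l hl hk
    have h2 : |∑ y ∈ W, (ext E W (j + 1) (y :: l) - (W.card : ℝ) ^ (j + 1) *
        (ext E R (j + 1) (y :: l) / (R.card : ℝ) ^ (j + 1)))|
        ≤ W.card * ((j + 1) * (W.card : ℝ) ^ j * L) := by
      refine (Finset.abs_sum_le_sum_abs _ _).trans ?_
      calc _ ≤ ∑ _y ∈ W, (j + 1) * (W.card : ℝ) ^ j * L := by
            refine Finset.sum_le_sum fun y hy => ih (y :: l) ?_ (by simp only [List.length_cons]; omega)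
            intro v hv
            rcases List.mem_cons.mp hv with rfl | hv
            · exact hW hy
            · exact hl v hv
        _ = _ := by simp
    rw [Finset.sum_sub_distrib, ← Finset.mul_sum, ← ext_succ hE] at h2
    have h4 : |(W.card : ℝ) ^ (j + 1) * (∑ y ∈ W, ext E R (j + 1) (y :: l) / (R.card : ℝ) ^ (j + 1)
        - W.card * (ext E R (j + 1 + 1) l / (R.card : ℝ) ^ (j + 1 + 1)))|
        ≤ (W.card : ℝ) ^ (j + 1) * L := by
      rw [abs_mul, abs_of_nonneg (by positivity)]
      exact mul_le_mul_of_nonneg_left h1 (by positivity)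
    have e1 : ((j + 1 : ℕ) + 1 : ℝ) * (W.card : ℝ) ^ (j + 1) * L =
        W.card * ((j + 1) * (W.card : ℝ) ^ j * L) + (W.card : ℝ) ^ (j + 1) * L := by
      push_cast
      ring
    rw [e1]
    refine le_trans (le_of_eq ?_) ((abs_add_le _ _).trans (add_le_add h2 h4))
    congr 1
    ring

end

theorem param_ineq (k : ℕ) (hk : 1 ≤ k) : ∃ M : ℝ, 1 ≤ M ∧ ∀ s N : ℝ, 1 ≤ s →
    N ≤ k * (k * (s ^ 4) ^ k) → 2 * N * Real.exp 1 ≤ Real.exp (M * s) := by
  have hkR : (1 : ℝ) ≤ k := by exact_mod_cast hk
  have hf : (1 : ℝ) ≤ (Nat.factorial (4 * k) : ℝ) := by exact_mod_cast Nat.factorial_pos _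
  have hM : (1 : ℝ) ≤ 6 * k * k * (Nat.factorial (4 * k) : ℝ) := by
    have : (1 : ℝ) ≤ k * k := by nlinarith
    nlinarith
  refine ⟨6 * k * k * (Nat.factorial (4 * k) : ℝ), hM, ?_⟩
  intro s N hs hN
  set M : ℝ := 6 * k * k * (Nat.factorial (4 * k) : ℝ) with hMd
  have h1 := Real.pow_div_factorial_le_exp (M * s) (by positivity) (4 * k)
  have h2 : Real.exp 1 ≤ 3 := by
    have := Real.exp_one_lt_d9
    linarith
  have h3 : M ≤ M ^ (4 * k) := le_self_pow₀ hM (by omega)
  have h4 : 0 < s ^ (4 * k) := by positivity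
  have h5 := Real.exp_pos 1
  rw [← pow_mul] at hN
  refine le_trans ?_ h1
  rw [le_div_iff₀ (by positivity), mul_pow]
  have h6 : 2 * N * Real.exp 1 ≤ 6 * (k * (k * s ^ (4 * k))) := by
    have : 0 ≤ (k : ℝ) * (k * s ^ (4 * k)) := by positivity
    nlinarith
  calc 2 * N * Real.exp 1 * (Nat.factorial (4 * k) : ℝ)
      ≤ 6 * (k * (k * s ^ (4 * k))) * (Nat.factorial (4 * k) : ℝ) :=
        mul_le_mul_of_nonneg_right h6 (by positivity)
    _ = M * s ^ (4 * k) := by rw [hMd]; ring
    _ ≤ _ := mul_le_mul_of_nonneg_right h3 h4.le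

/-- The main packing statement inside a vertex set. -/
theorem reach_small (r t : ℕ) (hr : 1 ≤ r) (ht : 1 ≤ t) (c : ℝ) (hc : 0 < c) (hc1 : c ≤ 1) :
    ∃ d : ℝ, 0 < d ∧ ∃ C : ℕ, ∀ (V : Type) [DecidableEq V] (E : List V → Prop)
      (R : Finset V), SymK E →
      (∀ l ∈ lists R (r + 1), l.Nodup → c * R.card ≤ ext E R 1 l) →
      (∀ u ∈ R, ∀ v ∈ R,
        ext E R (r + 1) [u] ≤ ext E R (r + 1) [v] + d * (R.card : ℝ) ^ (r + 1)) →
      ∃ W, Reach (Blk E (r + 2) t) R W ∧ W.card ≤ C := by
  obtain ⟨d, hd, n0, hdual⟩ := dual r t hr ht (c / 2) (by positivity) (by linarith)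
  obtain ⟨M, hM, hpar⟩ := param_ineq (r + 2) (by omega)
  obtain ⟨h, hh⟩ : ∃ h : ℕ, h = (r + 2) * t := ⟨_, rfl⟩
  have hh1 : 1 ≤ h := by rw [hh]; nlinarith
  have hh0 : (0 : ℝ) < h := by exact_mod_cast hh1
  have hrR : (0 : ℝ) ≤ r := by positivity
  set A : ℝ := 64 * (r + 1) * M * h with hA
  have hA0 : 0 < A := by positivity
  set C : ℕ := 32 * n0 + 32 * h + 32 + ⌈(4 * A / c) ^ 4⌉₊ + ⌈(4 * A / d) ^ 4⌉₊ with hC
  refine ⟨d / 2, by positivity, C, ?_⟩
  intro V _ E R hE
  have main : ∀ (n : ℕ) (R : Finset V), R.card = n →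
      (∀ l ∈ lists R (r + 1), l.Nodup → (c - A / rt n) * R.card ≤ ext E R 1 l) →
      (∀ u ∈ R, ∀ v ∈ R, ext E R (r + 1) [u] ≤ ext E R (r + 1) [v] +
        (d / 2 + A / rt n) * (R.card : ℝ) ^ (r + 1)) →
      ∃ W, Reach (Blk E (r + 2) t) R W ∧ W.card ≤ C := by
    intro n
    induction n using Nat.strong_induction_on with
    | _ n ih =>
    intro R hRn hcod hdg
    by_cases hsmall : n ≤ C
    · exact ⟨R, Reach.refl, by omega⟩
    have hnC : C < n := by omega
    set s : ℝ := rt n with hs
    have hs4 : s ^ 4 = n := rt_pow n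
    have hs1 : 1 ≤ s := le_rt n 1 (by
      rw [one_pow]
      exact_mod_cast (by omega : 1 ≤ n))
    have hs0 : 0 < s := by linarith
    have hsc : 4 * A / c ≤ s := le_rt n _
      (le_trans (Nat.le_ceil _) (Nat.cast_le.mpr (by omega)))
    have hsd : 4 * A / d ≤ s := le_rt n _
      (le_trans (Nat.le_ceil _) (Nat.cast_le.mpr (by omega)))
    have hφc : A / s ≤ c / 4 := by
      rw [div_le_iff₀ hc] at hsc
      rw [div_le_iff₀ hs0]
      linarith
    have hφd : A / s ≤ d / 4 := by
      rw [div_le_iff₀ hd] at hsd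
      rw [div_le_iff₀ hs0]
      linarith
    have hφ0 : 0 < A / s := by positivity
    have hnR : (0 : ℝ) < n := by exact_mod_cast (by omega : 0 < n)
    set L : ℝ := M * h * s ^ 3 with hL
    have hL0 : 0 < L := by positivity
    -- transfer of the invariants
    have trans : ∀ W ⊆ R, n ≤ 32 * W.card →
        (∀ p ∈ idx R (r + 2), |∑ v ∈ W, test E R p v| ≤ L) →
        (∀ l ∈ lists W (r + 1), l.Nodup → (c - 2 * (A / s)) * W.card ≤ ext E W 1 l) ∧
        (∀ u ∈ W, ∀ v ∈ W, ext E W (r + 1) [u] ≤ ext E W (r + 1) [v] +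
          (d / 2 + 2 * (A / s)) * (W.card : ℝ) ^ (r + 1)) := by
      intro W hWR hW hgood
      have hW' : (n : ℝ) ≤ 32 * W.card := by exact_mod_cast hW
      have hm0 : (0 : ℝ) < W.card := by linarith
      have hLm : 2 * (r + 1) * L ≤ A / s * W.card := by
        rw [div_mul_eq_mul_div, le_div_iff₀ hs0]
        have : 2 * (r + 1) * L * s = 2 * ((r + 1) * M * h) * n := by rw [hL, ← hs4]; ring
        rw [this, hA]
        have : 0 ≤ ((r : ℝ) + 1) * M * h := by positivity
        nlinarith
      constructor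
      · intro l hl hnd
        have hlR := lists_mono hWR _ hl
        obtain ⟨l1, l2⟩ := (mem_lists R _ l).mp hlR
        have a1 := (abs_le.mp (transfer E hE R W hWR (r + 2) L hgood 0 l l2 (by omega))).1
        have a2 := hcod l hlR hnd
        rw [hRn] at a1 a2
        simp only [zero_add, pow_one, pow_zero, Nat.cast_zero, mul_one, one_mul] at a1
        have a3 : c - A / s ≤ ext E R 1 l / n := by
          rw [le_div_iff₀ hnR]
          exact a2
        have a4 := mul_le_mul_of_nonneg_left a3 hm0.le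
        have a5 : L ≤ 2 * (r + 1) * L := by nlinarith
        nlinarith
      · intro u hu v hv
        have a1 := (abs_le.mp (transfer E hE R W hWR (r + 2) L hgood r [u]
          (by simpa using hWR hu) (by simp only [List.length_singleton]; omega))).2
        have a2 := (abs_le.mp (transfer E hE R W hWR (r + 2) L hgood r [v]
          (by simpa using hWR hv) (by simp only [List.length_singleton]; omega))).1
        have a3 := hdg u (hWR hu) v (hWR hv)
        rw [hRn] at a1 a2 a3
        have a4 : ext E R (r + 1) [u] / (n : ℝ) ^ (r + 1)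
            ≤ ext E R (r + 1) [v] / (n : ℝ) ^ (r + 1) + (d / 2 + A / s) := by
          rw [div_add' _ _ _ (by positivity), div_le_div_iff_of_pos_right (by positivity)]
          exact a3
        have a5 := mul_le_mul_of_nonneg_left a4 (by positivity : (0 : ℝ) ≤ (W.card : ℝ) ^ (r + 1))
        have a6 := mul_le_mul_of_nonneg_left hLm (by positivity : (0 : ℝ) ≤ (W.card : ℝ) ^ r)
        have e6 : (W.card : ℝ) ^ r * (A / s * W.card) = A / s * (W.card : ℝ) ^ (r + 1) := by ring
        rw [e6] at a6
        linarith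
    have hg := greedy (B := Blk E (r + 2) t) hh1 (fun S hS => by rw [hh]; exact hS.card hE ht)
      (idx R (r + 2)) (test E R) R
      (fun j _ v _ => test_abs_le E R (by omega) j v)
      (fun j _ => test_sum E hE R (by omega) j) (1 / (h * s ^ 2)) L (by positivity)
      (by
        have : 1 / (h * s ^ 2) * h = 1 / s ^ 2 := by field_simp
        rw [this, div_le_one (by positivity)]
        nlinarith)
      (by
        rw [hRn]
        have e1 : (1 / (h * s ^ 2)) ^ 2 * (h : ℝ) ^ 2 * n = 1 := by
          rw [← hs4]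
          field_simp
        have e2 : 1 / (h * s ^ 2) * L = M * s := by
          rw [hL]
          field_simp
        rw [e1, e2]
        apply hpar s _ hs1
        have := card_idx R (r + 2) (by omega)
        rw [hRn] at this
        rw [hs4]
        exact_mod_cast this)
      (n / 16 + 1) (by omega) (by omega)
      (by
        intro W hWR hW hgood w hw
        obtain ⟨t1, t2⟩ := trans W hWR (by omega) hgood
        have hm0 : (0 : ℝ) ≤ W.card := by positivity
        apply hdual V E W hE (by omega) _ _ w hw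
        · intro l hl hnd
          refine le_trans ?_ (t1 l hl hnd)
          apply mul_le_mul_of_nonneg_right _ hm0
          linarith
        · intro u hu v hv
          refine le_trans (t2 u hu v hv) ?_
          have : (d / 2 + 2 * (A / s)) * (W.card : ℝ) ^ (r + 1) ≤ d * (W.card : ℝ) ^ (r + 1) := by
            apply mul_le_mul_of_nonneg_right _ (by positivity)
            linarith
          linarith)
    obtain ⟨W, hW, hW1, hW2, hgood⟩ := hg
    obtain ⟨t1, t2⟩ := trans W hW.subset (by omega) hgood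
    have hm0 : (0 : ℝ) ≤ W.card := by positivity
    have hrt : 2 * (A / s) ≤ A / rt W.card := by
      have r0 : 1 ≤ rt W.card := le_rt _ 1 (by
        rw [one_pow]
        exact_mod_cast (by omega : 1 ≤ W.card))
      have r1 : 2 * rt W.card ≤ s := le_rt n _ (by
        rw [mul_pow, rt_pow]
        have : 16 * W.card ≤ n := by omega
        have : (16 : ℝ) * W.card ≤ n := by exact_mod_cast this
        linarith)
      rw [← mul_div_assoc, div_le_div_iff₀ hs0 (by linarith)]
      nlinarith
    obtain ⟨U, hU, hUc⟩ := ih W.card (by omega) W rfl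
      (by
        intro l hl hnd
        refine le_trans ?_ (t1 l hl hnd)
        apply mul_le_mul_of_nonneg_right _ hm0
        linarith)
      (by
        intro u hu v hv
        refine le_trans (t2 u hu v hv) ?_
        have : (d / 2 + 2 * (A / s)) * (W.card : ℝ) ^ (r + 1)
            ≤ (d / 2 + A / rt W.card) * (W.card : ℝ) ^ (r + 1) := by
          apply mul_le_mul_of_nonneg_right _ (by positivity)
          linarith
        linarith)
    exact ⟨U, hW.trans hU, hUc⟩
  intro hcod hdg
  have hφ : 0 ≤ A / rt R.card := div_nonneg hA0.le (rt_nonneg _)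
  have hm0 : (0 : ℝ) ≤ R.card := by positivity
  apply main R.card R rfl
  · intro l hl hnd
    refine le_trans ?_ (hcod l hl hnd)
    apply mul_le_mul_of_nonneg_right _ hm0
    linarith
  · intro u hu v hv
    refine le_trans (hdg u hu v hv) ?_
    have : d / 2 * (R.card : ℝ) ^ (r + 1) ≤ (d / 2 + A / rt R.card) * (R.card : ℝ) ^ (r + 1) := by
      apply mul_le_mul_of_nonneg_right _ (by positivity)
      linarith
    linarith

end Pool.Agent.Lib.MP_b50c09_co.K
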