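import Mathlib
import Pool.Agent.Lib.MP_b50c09_co.K.Epoch

set_option autoImplicit false
set_option linter.unusedSectionVars false
set_option linter.unusedVariables false

namespace Pool.Agent.Lib.MP_b50c09_co.K

open Finset

section
variable {V : Type} [DecidableEq V]

/-- Ordered edges of the `k`-graph `G`. -/
def OE (k : ℕ) (G : Finset (Finset V)) (l : List V) : Prop := l.length = k ∧ l.toFinset ∈ G

theorem nodup_of_card {l : List V} (h : l.toFinset.card = l.length) : l.Nodup := by
  rw [List.card_toFinset] at h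
  exact List.dedup_eq_self.mp ((List.dedup_sublist l).eq_of_length h)

theorem symK_of {k : ℕ} {G : Finset (Finset V)} (hG : ∀ e ∈ G, e.card = k) : SymK (OE k G) where
  perm := by
    intro l l' h hl
    exact ⟨h.length_eq ▸ hl.1, List.toFinset_eq_of_perm _ _ h ▸ hl.2⟩
  nd := by
    intro l hl
    exact nodup_of_card ((hG _ hl.2).trans hl.1.symm)

theorem orderings [Fintype V] (j : ℕ) (v : V) (e : Finset V) (hv : v ∈ e) (he : e.card = j + 1) :
    ∑ m ∈ lists (Finset.univ : Finset V) j, ind ((v :: m).toFinset = e) = (j.factorial : ℝ) := by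
  rw [sum_ind]
  have hlen : (e.erase v).toList.length = j := by
    rw [Finset.length_toList, Finset.card_erase_of_mem hv, he]
    rfl
  have hset : (lists (Finset.univ : Finset V) j).filter (fun m => (v :: m).toFinset = e) =
      (e.erase v).toList.permutations.toFinset := by
    ext m
    rw [Finset.mem_filter, List.mem_toFinset, List.mem_permutations, mem_lists]
    constructor
    · rintro ⟨⟨h1, -⟩, h2⟩
      have hnd : (v :: m).Nodup := nodup_of_card (by rw [h2, he, List.length_cons, h1])
      obtain ⟨h3, h4⟩ := List.nodup_cons.mp hnd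
      refine List.perm_of_nodup_nodup_toFinset_eq h4 (Finset.nodup_toList _) ?_
      rw [Finset.toList_toFinset, ← h2, List.toFinset_cons, Finset.erase_insert]
      simpa using h3
    · intro h
      refine ⟨⟨h.length_eq.trans hlen, fun _ _ => Finset.mem_univ _⟩, ?_⟩
      rw [List.toFinset_cons, List.toFinset_eq_of_perm _ _ h, Finset.toList_toFinset,
        Finset.insert_erase hv]
  rw [hset, List.toFinset_card_of_nodup (List.nodup_permutations _ (Finset.nodup_toList _)),
    List.length_permutations, hlen]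

theorem dg_eq [Fintype V] {j : ℕ} {G : Finset (Finset V)} (hG : ∀ e ∈ G, e.card = j + 1) (v : V) :
    ext (OE (j + 1) G) Finset.univ j [v]
      = (j.factorial : ℝ) * ((G.filter (fun e => v ∈ e)).card : ℝ) := by
  rw [ext_single (symK_of hG)]
  have h1 : ∀ m ∈ lists (Finset.univ : Finset V) j, ind (OE (j + 1) G (v :: m)) =
      ∑ e ∈ G.filter (fun e => v ∈ e), ind ((v :: m).toFinset = e) := by
    intro m hm
    have hl := ((mem_lists _ j m).mp hm).1
    by_cases h : (v :: m).toFinset ∈ G
    · rw [ind_pos ⟨by simp [hl], h⟩, Finset.sum_eq_single (v :: m).toFinset]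
      · rw [ind_pos rfl]
      · intro e _ hne
        exact ind_neg fun h' => hne h'.symm
      · intro hn
        exact absurd (Finset.mem_filter.mpr ⟨h, by simp⟩) hn
    · rw [ind_neg fun h' => h h'.2]
      refine (Finset.sum_eq_zero fun e he => ind_neg fun h' => h ?_).symm
      rw [h']
      exact (Finset.mem_filter.mp he).1
  rw [Finset.sum_congr rfl h1, Finset.sum_comm, Finset.sum_congr rfl (g := fun _ => (j.factorial : ℝ))]
  · simp [mul_comm]
  · intro e he
    obtain ⟨h2, h3⟩ := Finset.mem_filter.mp he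
    exact orderings j v e h3 (hG e h2)

theorem cod_ge [Fintype V] {j : ℕ} {G : Finset (Finset V)} (hG : ∀ e ∈ G, e.card = j + 1)
    (l : List V) (hl : l.length = j) :
    ((Finset.univ.filter (fun w : V => w ∉ l.toFinset ∧ insert w l.toFinset ∈ G)).card : ℝ)
      ≤ ext (OE (j + 1) G) Finset.univ 1 l := by
  rw [ext_one (symK_of hG), ← sum_ind]
  refine Finset.sum_le_sum fun w _ => ind_mono fun h => ⟨by simp [hl], ?_⟩
  rw [List.toFinset_cons]
  exact h.2

variable {U : Type} [Fintype U] [DecidableEq U] [Nonempty U] (H : Finset (Finset U))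

/-- A block splits into `k` copies of the `k`-partite `k`-graph `H`. -/
theorem blk_copies {j : ℕ} {G : Finset (Finset V)} (hG : ∀ e ∈ G, e.card = j + 1)
    (part : U → Fin (j + 1))
    (hpart : ∀ e ∈ H, ∀ i : Fin (j + 1), (e.filter (fun u => part u = i)).card = 1)
    (S : Finset V) (hS : Blk (OE (j + 1) G) (j + 1) (Fintype.card U) S) :
    ∃ F : Fin (j + 1) → (U ↪ V), (∀ k, ∀ e ∈ H, e.map (F k) ∈ G) ∧
      (∀ k k', k ≠ k' → Disjoint (Finset.univ.map (F k)) (Finset.univ.map (F k'))) ∧
      (∀ k, Finset.univ.map (F k) ⊆ S) ∧ ∀ v ∈ S, ∃ k, v ∈ Finset.univ.map (F k) := by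
  obtain ⟨T, hX, hc, rfl⟩ := hS
  have hE := symK_of hG
  have hTd := disj_of_complete hE Fintype.card_pos hX hc
  have hT : ∀ i, Fintype.card U = Fintype.card (T i) := by
    intro i
    rw [Fintype.card_coe, hX]
  let g : ∀ i, U ≃ T i := fun i => Fintype.equivOfCardEq (hT i)
  have ginj : ∀ (i i' : Fin (j + 1)) (u u' : U), (g i u : V) = (g i' u' : V) → i = i' ∧ u = u' := by
    intro i i' u u' h
    have hij : i = i' := by
      by_contra hne
      have h1 := (g i u).2
      have h2 := (g i' u').2
      rw [← h] at h2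
      exact Finset.disjoint_left.mp (hTd i i' hne) h1 h2
    subst hij
    exact ⟨rfl, (g i).injective (Subtype.ext h)⟩
  let F : Fin (j + 1) → (U ↪ V) := fun k =>
    ⟨fun u => (g (part u + k) u : V), fun u u' h => (ginj _ _ _ _ h).2⟩
  have hF : ∀ k u, F k u = (g (part u + k) u : V) := fun _ _ => rfl
  refine ⟨F, ?_, ?_, ?_, ?_⟩
  · intro k e he
    choose a ha using fun i => Finset.card_eq_one.mp (hpart e he i)
    have ha' : ∀ i, a i ∈ e ∧ part (a i) = i := by
      intro i
      have : a i ∈ e.filter (fun u => part u = i) := by rw [ha i]; simp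
      exact Finset.mem_filter.mp this
    have ha2 : ∀ u ∈ e, a (part u) = u := by
      intro u hu
      have : u ∈ e.filter (fun u' => part u' = part u) := Finset.mem_filter.mpr ⟨hu, rfl⟩
      rw [ha] at this
      exact (Finset.mem_singleton.mp this).symm
    have h := (hc (fun i => F k (a (i - k))) (by
      intro i
      have e1 : part (a (i - k)) + k = i := by rw [(ha' _).2]; abel
      have key : ∀ (i' : Fin (j + 1)) (u : U), i' = i → (g i' u : V) ∈ T i := by
        rintro _ u rfl
        exact (g _ u).2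
      rw [hF]
      exact key _ _ e1)).2
    have e2 : (List.ofFn fun i => F k (a (i - k))).toFinset = e.map (F k) := by
      ext v
      rw [List.mem_toFinset, List.mem_ofFn, Finset.mem_map]
      constructor
      · rintro ⟨i, rfl⟩
        exact ⟨_, (ha' _).1, rfl⟩
      · rintro ⟨u, hu, rfl⟩
        refine ⟨part u + k, ?_⟩
        have : part u + k - k = part u := by abel
        simp only [this, ha2 u hu]
    rw [← e2]
    exact h
  · intro k k' hkk
    rw [Finset.disjoint_left]
    intro v h1 h2
    rw [Finset.mem_map] at h1 h2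
    obtain ⟨u, _, hu⟩ := h1
    obtain ⟨u', _, hu'⟩ := h2
    rw [← hu', hF, hF] at hu
    obtain ⟨h3, h4⟩ := ginj _ _ _ _ hu
    subst h4
    exact hkk (add_left_cancel h3)
  · intro k v hv
    rw [Finset.mem_map] at hv
    obtain ⟨u, _, rfl⟩ := hv
    rw [hF]
    exact Finset.mem_biUnion.mpr ⟨_, Finset.mem_univ _, (g (part u + k) u).2⟩
  · intro v hv
    obtain ⟨i, -, hi⟩ := Finset.mem_biUnion.mp hv
    obtain ⟨u, hu⟩ := (g i).surjective ⟨v, hi⟩
    refine ⟨i - part u, Finset.mem_map.mpr ⟨u, Finset.mem_univ _, ?_⟩⟩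
    rw [hF]
    have : part u + (i - part u) = i := by abel
    rw [this, hu]

theorem packing_of_reach {j : ℕ} {G : Finset (Finset V)} (hG : ∀ e ∈ G, e.card = j + 1)
    (part : U → Fin (j + 1))
    (hpart : ∀ e ∈ H, ∀ i : Fin (j + 1), (e.filter (fun u => part u = i)).card = 1)
    (R W : Finset V) (h : Reach (Blk (OE (j + 1) G) (j + 1) (Fintype.card U)) R W) :
    ∃ P : Finset (U ↪ V), (∀ f ∈ P, ∀ e ∈ H, e.map f ∈ G) ∧
      (∀ f ∈ P, ∀ g ∈ P, f ≠ g → Disjoint (Finset.univ.map f) (Finset.univ.map g)) ∧
      (∀ f ∈ P, Disjoint (Finset.univ.map f) W) ∧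
      ∀ v ∈ R, v ∉ W → ∃ f ∈ P, v ∈ Finset.univ.map f := by
  classical
  induction h with
  | refl => exact ⟨∅, by simp, by simp, by simp, fun v h1 h2 => absurd h1 h2⟩
  | step W S _ hSW hS ih =>
    obtain ⟨P, p1, p2, p3, p4⟩ := ih
    obtain ⟨F, f1, f2, f3, f4⟩ := blk_copies H hG part hpart S hS
    refine ⟨P ∪ Finset.univ.image F, ?_, ?_, ?_, ?_⟩
    · intro f hf
      rw [Finset.mem_union, Finset.mem_image] at hf
      rcases hf with hf | ⟨k, _, rfl⟩
      · exact p1 f hf
      · exact f1 k
    · intro f hf g hg hfg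
      rw [Finset.mem_union, Finset.mem_image] at hf hg
      rcases hf with hf | ⟨k, _, rfl⟩
      · rcases hg with hg | ⟨k', _, rfl⟩
        · exact p2 f hf g hg hfg
        · exact (p3 f hf).mono_right ((f3 k').trans hSW)
      · rcases hg with hg | ⟨k', _, rfl⟩
        · exact ((p3 g hg).mono_right ((f3 k).trans hSW)).symm
        · exact f2 k k' (fun h => hfg (by rw [h]))
    · intro f hf
      rw [Finset.mem_union, Finset.mem_image] at hf
      rcases hf with hf | ⟨k, _, rfl⟩
      · exact (p3 f hf).mono_right Finset.sdiff_subset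
      · exact Finset.disjoint_sdiff.mono_left (f3 k)
    · intro v hv hvW
      by_cases hW : v ∈ W
      · have hvS : v ∈ S := by
          by_contra hh
          exact hvW (Finset.mem_sdiff.mpr ⟨hW, hh⟩)
        obtain ⟨k, hk⟩ := f4 v hvS
        exact ⟨F k, Finset.mem_union_right _ (Finset.mem_image.mpr ⟨k, Finset.mem_univ _, rfl⟩), hk⟩
      · obtain ⟨f, hf, hvf⟩ := p4 v hv hW
        exact ⟨f, Finset.mem_union_left _ hf, hvf⟩

end

end Pool.Agent.Lib.MP_b50c09_co.K
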